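import Pool.Agent.Run7.h538.TP.Stm

/-!
# Project TP (helper538): the piece PF (partial fractions)
-/

set_option autoImplicit false

open Finset

namespace Run7.h957.TP

open Run7.h538.TP

theorem pf_ind (M : ℕ) : ∃ (a0 : ℝ) (ρ : ℕ → ℝ), (∀ t < M, 0 < ρ t) ∧
    ∀ T : ℝ, (∀ t < M, T ≠ 2 * t + 1) →
      T - a0 - ∑ t ∈ range M, ρ t / (T - (2 * t + 1)) =
        (∏ i ∈ range (M + 1), (T - 2 * i)) / ∏ t ∈ range M, (T - (2 * t + 1)) := by
  induction M with
  | zero =>
    refine ⟨0, fun _ => 0, by simp, fun T _ => ?_⟩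
    simp
  | succ M ih =>
    obtain ⟨a0, ρ, hρ, hT⟩ := ih
    obtain ⟨P, hP⟩ : ∃ P : ℝ, P = 2 * M + 1 := ⟨_, rfl⟩
    have hPt : ∀ t < M, (0 : ℝ) < P - (2 * t + 1) := by
      intro t ht
      have : (t : ℝ) < M := by exact_mod_cast ht
      rw [hP]
      linarith
    obtain ⟨c, hc⟩ : ∃ c : ℝ, c = P - a0 - ∑ t ∈ range M, ρ t / (P - (2 * t + 1)) := ⟨_, rfl⟩
    have hc0 : 0 < c := by
      rw [hc, hT P (fun t ht h => by have := hPt t ht; linarith)]
      refine div_pos (prod_pos fun i hi => ?_) (prod_pos fun t ht => hPt t (mem_range.mp ht))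
      have h1 : (i : ℝ) ≤ M := by exact_mod_cast Nat.lt_succ_iff.mp (mem_range.mp hi)
      rw [hP]
      linarith
    refine ⟨a0 + 1, fun t => if t = M then c else ρ t * (1 + 1 / (P - (2 * t + 1))), ?_, ?_⟩
    · intro t ht
      show 0 < (if t = M then c else ρ t * (1 + 1 / (P - (2 * t + 1))))
      split_ifs with h
      · exact hc0
      · have ht' : t < M := by omega
        have h1 := hPt t ht'
        have h2 := hρ t ht'
        positivity
    · intro T hTp
      have hTP : T - P ≠ 0 := by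
        rw [hP]
        exact sub_ne_zero.mpr (hTp M (Nat.lt_succ_self M))
      have hTt : ∀ t < M, T - (2 * t + 1) ≠ 0 := fun t ht =>
        sub_ne_zero.mpr (hTp t (by omega))
      have hfM := hT T (fun t ht => hTp t (by omega))
      obtain ⟨S1, hS1⟩ : ∃ S1, S1 = ∑ t ∈ range M, ρ t / (T - (2 * t + 1)) := ⟨_, rfl⟩
      obtain ⟨S2, hS2⟩ : ∃ S2, S2 = ∑ t ∈ range M, ρ t / (P - (2 * t + 1)) := ⟨_, rfl⟩
      obtain ⟨S4, hS4⟩ : ∃ S4, S4 = ∑ t ∈ range M,
        ρ t / ((P - (2 * t + 1)) * (T - (2 * t + 1))) := ⟨_, rfl⟩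
      have e1 : (T - P) * S4 = S2 - S1 := by
        rw [hS4, hS2, hS1, mul_sum, ← sum_sub_distrib]
        refine sum_congr rfl fun t ht => ?_
        have h1 := (hPt t (mem_range.mp ht)).ne'
        have h2 := hTt t (mem_range.mp ht)
        field_simp
        ring
      have e2 : ∑ t ∈ range (M + 1), (if t = M then c else ρ t * (1 + 1 / (P - (2 * t + 1)))) /
          (T - (2 * t + 1)) = S1 + S4 + c / (T - P) := by
        rw [sum_range_succ, if_pos rfl, hS1, hS4, ← sum_add_distrib, hP]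
        congr 1
        refine sum_congr rfl fun t ht => ?_
        have ht' := mem_range.mp ht
        have h1 := (hPt t ht').ne'
        have h2 := hTt t ht'
        rw [hP] at h1
        rw [if_neg (by omega)]
        field_simp
      show T - (a0 + 1) - ∑ t ∈ range (M + 1),
        (if t = M then c else ρ t * (1 + 1 / (P - (2 * t + 1)))) / (T - (2 * t + 1)) = _
      rw [← hS1] at hfM
      rw [← hS2] at hc
      rw [e2, prod_range_succ (fun i : ℕ => T - 2 * (i : ℝ)) (M + 1),
        prod_range_succ (fun t : ℕ => T - (2 * (t : ℝ) + 1)) M, mul_div_mul_comm, ← hfM, hc]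
      have h3 : (2 * (M : ℝ) + 1) = P := hP.symm
      rw [h3]
      have h4 : T - 2 * ((M + 1 : ℕ) : ℝ) = T - P - 1 := by
        rw [hP]
        push_cast
        ring
      rw [h4]
      field_simp
      linear_combination -e1

theorem t_PF : S_PF := by
  intro M
  obtain ⟨a0, ρ, h1, h2⟩ := pf_ind M
  refine ⟨a0, ρ, h1, fun i hi => ?_⟩
  have h3 := h2 (2 * i) (fun t _ h => by
    have h4 : (2 * i : ℕ) = 2 * t + 1 := by exact_mod_cast h
    omega)
  have h5 : (∏ j ∈ range (M + 1), ((2 * i : ℝ) - 2 * j)) = 0 :=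
    prod_eq_zero (mem_range.mpr (Nat.lt_succ_of_le hi)) (sub_self _)
  rw [h5, zero_div] at h3
  linarith

end Run7.h957.TP
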