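import Pool.Agent.Run7.h538.TP.Stm

/-!
# Project TP (helper538): the piece KER (double eigenvalues)
-/

set_option autoImplicit false

open Finset Matrix

namespace Run7.h957.TP

open Run7.h538.TP

theorem col_orth {k : ℕ} (f : Fin k → Fin k → ℝ)
    (hf : ∀ i i', ∑ j, f i j * f i' j = if i = i' then 1 else 0) (l l' : Fin k) :
    ∑ j, f j l * f j l' = if l = l' then 1 else 0 := by
  have h1 : (Matrix.of f) * (Matrix.of f)ᵀ = 1 := by
    ext i i'
    rw [Matrix.mul_apply, Matrix.one_apply]
    exact hf i i'
  have h2 := mul_eq_one_comm.mp h1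
  have h3 := congrFun (congrFun h2 l) l'
  rw [Matrix.mul_apply, Matrix.one_apply] at h3
  exact h3

theorem two_sum {k : ℕ} (f : Fin k → Fin k → ℝ)
    (hf : ∀ i i', ∑ j, f i j * f i' j = if i = i' then 1 else 0) (x h : Fin k → ℝ) :
    ∑ j, (∑ l, x l * f j l) * (∑ l, f j l * h l) = ∑ l, x l * h l := by
  have h1 : ∀ j, (∑ l, x l * f j l) * (∑ l, f j l * h l) =
      ∑ l, ∑ l', x l * h l' * (f j l * f j l') := by
    intro j
    rw [sum_mul_sum]
    refine sum_congr rfl fun l _ => sum_congr rfl fun l' _ => ?_
    ring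
  rw [sum_congr rfl fun j _ => h1 j, sum_comm]
  refine sum_congr rfl fun l _ => ?_
  rw [sum_comm]
  have h2 : ∀ l', ∑ j, x l * h l' * (f j l * f j l') = if l = l' then x l * h l' else 0 := by
    intro l'
    rw [← mul_sum, col_orth f hf, mul_ite, mul_one, mul_zero]
  rw [sum_congr rfl fun l' _ => h2 l', sum_ite_eq, if_pos (mem_univ _)]

section
variable {K n : ℕ}

/-- a vector -/
noncomputable def vec (f : Fin K → Fin K → ℝ) (g : Fin n → Fin n → ℝ) (v0 : ℝ) (h : Fin K → ℝ)
    (w : Fin n → ℝ) : Fin (K + 1) ⊕ Fin n → ℝ :=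
  Sum.elim (Fin.cases v0 (fun j => ∑ l, f j l * h l)) (fun k => ∑ l, g k l * w l)

theorem eig (a0 : ℝ) (D r : Fin K → ℝ) (f : Fin K → Fin K → ℝ)
    (ν s : Fin n → ℝ) (g : Fin n → Fin n → ℝ)
    (hf : ∀ i i', ∑ j, f i j * f i' j = if i = i' then 1 else 0)
    (hg : ∀ i i', ∑ j, g i j * g i' j = if i = i' then 1 else 0)
    (v0 : ℝ) (h : Fin K → ℝ) (w : Fin n → ℝ) (μ : ℝ)
    (h1 : a0 * v0 + ∑ l, r l * h l + ∑ l, s l * w l = μ * v0)
    (h2 : ∀ l, r l * v0 + D l * h l = μ * h l) (h3 : ∀ l, s l * v0 + ν l * w l = μ * w l) :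
    Bm a0 D r f ν s g *ᵥ vec f g v0 h w = μ • vec f g v0 h w := by
  unfold Bm vec
  rw [Matrix.fromBlocks_mulVec]
  funext z
  rcases z with i | k
  · refine Fin.cases ?_ (fun i' => ?_) i
    · simp only [Sum.elim_inl, Pi.add_apply, Matrix.mulVec, dotProduct, Matrix.of_apply,
        Fin.sum_univ_succ, Fin.cases_zero, Fin.cases_succ, Function.comp, Sum.elim_inr,
        Pi.smul_apply, smul_eq_mul]
      rw [two_sum f hf r h, two_sum g hg s w]
      exact h1
    · simp only [Sum.elim_inl, Pi.add_apply, Matrix.mulVec, dotProduct, Matrix.of_apply,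
        Fin.sum_univ_succ, Fin.cases_zero, Fin.cases_succ, Function.comp, Sum.elim_inr,
        Pi.smul_apply, smul_eq_mul, zero_mul, sum_const_zero, add_zero]
      rw [two_sum f hf (fun l => f i' l * D l) h, sum_mul, ← sum_add_distrib, mul_sum]
      refine sum_congr rfl fun l _ => ?_
      linear_combination f i' l * h2 l
  · simp only [Sum.elim_inl, Pi.add_apply, Matrix.mulVec, dotProduct, Matrix.of_apply,
      Fin.sum_univ_succ, Fin.cases_zero, Fin.cases_succ, Function.comp, Sum.elim_inr,
      Pi.smul_apply, smul_eq_mul, zero_mul, sum_const_zero, add_zero]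
    rw [two_sum g hg (fun l => g k l * ν l) w, sum_mul, ← sum_add_distrib, mul_sum]
    refine sum_congr rfl fun l _ => ?_
    linear_combination g k l * h3 l

end

theorem t_KER : S_KER := by
  intro K n a0 D r f ν s g q hf hg hD hν hr hsum
  refine ⟨⟨vec f g 0 (fun l => if l = q then 1 else 0) (fun _ => 0),
    vec f g 1 (fun l => if l = q then 0 else r l / (D q - D l)) (fun l => s l / (D q - ν l)),
    ?_, ?_, ?_⟩, ?_⟩
  · rw [LinearIndependent.pair_iff]
    intro a b hab
    have hb : b = 0 := by
      have h1 := congrFun hab (Sum.inl 0)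
      simpa [vec] using h1
    subst hb
    refine ⟨?_, rfl⟩
    have h2 : ∀ i, a * f i q = 0 := by
      intro i
      have h1 := congrFun hab (Sum.inl i.succ)
      simpa [vec] using h1
    have h3 := col_orth f hf q q
    rw [if_pos rfl] at h3
    calc a = a * ∑ j, f j q * f j q := by rw [h3, mul_one]
      _ = ∑ j, (a * f j q) * f j q := by
        rw [mul_sum]
        exact sum_congr rfl fun j _ => by ring
      _ = 0 := sum_eq_zero fun j _ => by rw [h2, zero_mul]
  · refine eig a0 D r f ν s g hf hg _ _ _ _ ?_ ?_ ?_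
    · simp [hr]
    · intro l
      by_cases hl : l = q
      · simp [hl]
      · simp [hl]
    · intro l
      simp
  · refine eig a0 D r f ν s g hf hg _ _ _ _ ?_ ?_ ?_
    · have h1 : ∑ l, r l * (if l = q then 0 else r l / (D q - D l)) =
          ∑ l ∈ univ.erase q, r l ^ 2 / (D q - D l) := by
        rw [← add_sum_erase univ _ (mem_univ q), if_pos rfl, mul_zero, zero_add]
        refine sum_congr rfl fun l hl => ?_
        rw [if_neg (ne_of_mem_erase hl)]
        ring
      have h2 : ∑ l, s l * (s l / (D q - ν l)) = ∑ l, s l ^ 2 / (D q - ν l) :=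
        sum_congr rfl fun l _ => by ring
      rw [h1, h2, mul_one, mul_one]
      exact hsum
    · intro l
      by_cases hl : l = q
      · simp only [hl, if_true, hr]
        ring
      · simp only [hl, if_false]
        have h1 : D q - D l ≠ 0 := sub_ne_zero.mpr fun h => hl (hD h).symm
        field_simp
        ring
    · intro l
      have h1 : D q - ν l ≠ 0 := sub_ne_zero.mpr (hν l).symm
      field_simp
      ring
  · intro w hw
    have hc : ∀ l', ∑ k, g k l' * w k = 0 := by
      intro l'
      have h1 : ∀ k, ∑ k', (∑ l, g k l * ν l * g k' l) * w k' = D q * w k := by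
        intro k
        have h2 := congrFun hw k
        unfold Bm at h2
        rw [Matrix.toBlocks_fromBlocks₂₂] at h2
        exact h2
      have h3 : ∑ k, g k l' * ∑ k', (∑ l, g k l * ν l * g k' l) * w k' =
          ν l' * ∑ k, g k l' * w k := by
        have h4 : ∀ k, g k l' * ∑ k', (∑ l, g k l * ν l * g k' l) * w k' =
            ∑ l, (ν l * ∑ k', g k' l * w k') * (g k l' * g k l) := by
          intro k
          rw [mul_sum]
          have h5 : ∀ k', g k l' * ((∑ l, g k l * ν l * g k' l) * w k') =
              ∑ l, ν l * (g k' l * w k') * (g k l' * g k l) := by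
            intro k'
            rw [sum_mul, mul_sum]
            exact sum_congr rfl fun l _ => by ring
          rw [sum_congr rfl fun k' _ => h5 k', sum_comm]
          refine sum_congr rfl fun l _ => ?_
          rw [mul_sum, sum_mul]
        rw [sum_congr rfl fun k _ => h4 k, sum_comm]
        have h6 : ∀ l, ∑ k, (ν l * ∑ k', g k' l * w k') * (g k l' * g k l) =
            if l' = l then ν l * ∑ k', g k' l * w k' else 0 := by
          intro l
          rw [← mul_sum, col_orth g hg, mul_ite, mul_one, mul_zero]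
        rw [sum_congr rfl fun l _ => h6 l, sum_ite_eq, if_pos (mem_univ _)]
      have h7 : ∑ k, g k l' * ∑ k', (∑ l, g k l * ν l * g k' l) * w k' =
          D q * ∑ k, g k l' * w k := by
        rw [mul_sum]
        refine sum_congr rfl fun k _ => ?_
        rw [h1]
        ring
      have h8 : (ν l' - D q) * ∑ k, g k l' * w k = 0 := by
        linear_combination h7 - h3
      rcases mul_eq_zero.mp h8 with h9 | h9
      · exact absurd (sub_eq_zero.mp h9) (hν l')
      · exact h9
    funext k
    have h1 : ∑ k', (∑ l, g k l * g k' l) * w k' = w k := by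
      have h2 : ∀ k', (∑ l, g k l * g k' l) * w k' = if k = k' then w k' else 0 := by
        intro k'
        rw [hg, ite_mul, one_mul, zero_mul]
      rw [sum_congr rfl fun k' _ => h2 k', sum_ite_eq, if_pos (mem_univ _)]
    rw [← h1]
    have h3 : ∀ k', (∑ l, g k l * g k' l) * w k' = ∑ l, g k l * (g k' l * w k') := by
      intro k'
      rw [sum_mul]
      exact sum_congr rfl fun l _ => by ring
    rw [sum_congr rfl fun k' _ => h3 k', sum_comm]
    refine sum_eq_zero fun l _ => ?_
    rw [← mul_sum, hc, mul_zero]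

end Run7.h957.TP
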